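import Pool.Agent.Run7.h79.FJ.Fin

/-!
# Extensions whose kernel is a graph product with finite vertex groups

`C` is any class of groups with the closure properties `ClosedE C` which contains the groups `F ⋊ ℤ` for
all free groups `F` and all automorphisms of `F`, and (only for parts 2 and 3) the groups `B ⋊ ℤ` for
all abelian groups `B` and all automorphisms of `B`. All this is published for the class of the groups
which satisfy the K-theoretic Farrell–Jones conjecture with coefficients and finite wreath products,
and the torsion-free groups `Γ` in this class have `Wh(Γ) = 0` (only used in part 3).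

Call a group `K` a *good kernel* if every group `G` which has a normal subgroup `N` isomorphic to `K` with
`G ⧸ N` in `C` is in `C`. There is no condition on the action of `G` on `N`; in particular the mapping
tori `K ⋊ ℤ` of all automorphisms of `K` are in `C`.

**Theorem.** (1) Let `K` be the graph product of its subgroups `A v` along a finite graph, let the groups
`A v` with `v` in `S` be finite, and suppose that each of the other groups `A v` has, for every `e > 0`, only
finitely many conjugacy classes of solutions of `x ^ e = 1` (e.g. it is torsion-free, virtually
polycyclic or hyperbolic). If the graph product of the groups `A v` with `v` outside `S` is a good kernel,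
then `K` is a good kernel.

(2) Every group which has a subgroup of finite index which is a graph product, along a finite graph,
of finite groups and cyclic groups is a good kernel: all right-angled Coxeter groups of finite rank, all
graph products of finite groups, all graph products of finitely generated abelian groups, and all
finite index overgroups of these.

(3) Hence `Wh(Γ) = 0` for every torsion-free group `Γ` which is contained in an extension `G` of a group in
`C` by a kernel `K` as in (2), for instance for the torsion-free subgroups of the groups `K ⋊ ℤ`, where `K`
is a right-angled Coxeter group with an arbitrary automorphism.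

Before, this was known for right-angled Artin groups (`Run7/h370/RA`), for hyperbolic groups (so for the
hyperbolic right-angled Coxeter groups), and for actions which permute the conjugacy classes of the
vertex groups. A general automorphism of a graph product of finite groups does not: it may for example
be a transvection, and map a vertex group into a product of several vertex groups.

Outline of the proof.

* An element of finite order of an amalgamated product is conjugate into a factor (starting file
  `Y43/CH/Syll`). With the splitting of a graph product along the star of a vertex it follows, by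
  induction on the number of vertices, that a graph product of groups with finitely many classes of
  solutions of `x ^ e = 1` has the same property.
* Let `N` be normal in `G`, `g` in `G`, and `v` a vertex in `S`. For `a` in `A v` all elements
  `g ^ j a g ^ -j` are in finitely many conjugacy classes of `N`, so that for some `k > 0` the element `g ^ k`
  preserves the `N`-conjugacy class of each element of `A v`. Hence `g ^ k` normalizes the normal closure
  `M` of `A v` in `N`, and the group `N / M` is the graph product of the other vertex groups. By induction
  `N⟨g ^ k⟩ / M` is in `C`.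
* `M` is a free product of conjugates of `A v`. The elements of `G` need not permute these conjugates. But
  the intersection `D` of the kernels of all homomorphisms from `M` to the finite group `A v` is
  characteristic in `M`, `M / D` is locally finite, and `D` meets the conjugates of `A v` trivially, because
  they are retracts of `M`; so `D` is free. As `C` is closed under extensions with free kernels and with
  locally finite kernels (realization criterion), `N⟨g ^ k⟩` is in `C`, and by the extension criterion so
  is `G`.
* In (2) one starts with the theorem on right-angled Artin groups. If `H` has index `m` in the finitely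
  generated group `N`, then some power `g ^ k` normalizes `H`, because `N` has only finitely many subgroups
  of index `m`; and `H⟨g ^ k⟩` has finite index in `N⟨g⟩`.
-/

set_option autoImplicit false

namespace Run7.h79.Kept.AllActions8f66f0

open Pool.Agent.Y110.FJ (ClosedE)
open Run7.h79.FJ (Good IsGraphProduct FewTorsionClasses)

/-- `Wh(Γ)` is trivial, in the form of the frozen statement `S02245`: every invertible matrix over `ℤΓ`,
stabilised by an identity block, is `±g` on one diagonal entry times a product of commutators of
invertible matrices. -/
def WhTrivial (Γ : Type) [Group Γ] : Prop :=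
  ∀ (n : ℕ) (A : (Matrix (Fin n) (Fin n) (MonoidAlgebra ℤ Γ))ˣ),
    ∃ (m : ℕ) (g : Γ) (ε : ℤˣ)
      (C : (Matrix (Fin n ⊕ Fin (m + 1)) (Fin n ⊕ Fin (m + 1)) (MonoidAlgebra ℤ Γ))ˣ),
      C ∈ commutator (Matrix (Fin n ⊕ Fin (m + 1)) (Fin n ⊕ Fin (m + 1)) (MonoidAlgebra ℤ Γ))ˣ ∧
      Matrix.fromBlocks (↑A : Matrix (Fin n) (Fin n) (MonoidAlgebra ℤ Γ))
          (0 : Matrix (Fin n) (Fin (m + 1)) (MonoidAlgebra ℤ Γ))
          (0 : Matrix (Fin (m + 1)) (Fin n) (MonoidAlgebra ℤ Γ))
          (1 : Matrix (Fin (m + 1)) (Fin (m + 1)) (MonoidAlgebra ℤ Γ)) =
        Matrix.diagonal (fun i : Fin n ⊕ Fin (m + 1) =>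
            if i = Sum.inr (0 : Fin (m + 1)) then
              (MonoidAlgebra.single g ((ε : ℤ)) : MonoidAlgebra ℤ Γ) else 1) *
          (↑C : Matrix (Fin n ⊕ Fin (m + 1)) (Fin n ⊕ Fin (m + 1)) (MonoidAlgebra ℤ Γ))

theorem result (C : ∀ (G : Type) [Group G], Prop) (hC : ClosedE C)
    (hF : ∀ (X : Type) (α : MulAut (FreeGroup X)),
      C (FreeGroup X ⋊[zpowersHom (MulAut (FreeGroup X)) α] Multiplicative ℤ)) :
    (∀ (K V : Type) [Group K] [Finite V] (Γ : SimpleGraph V) (A : V → Subgroup K) (S : Set V),
      IsGraphProduct Γ A → (∀ v ∈ S, Finite (A v)) → (∀ v, v ∉ S → FewTorsionClasses (A v)) →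
      Good C ↥(⨆ v : ↥Sᶜ, A v) → Good C K) ∧
    ((∀ (B : Type) [CommGroup B] (α : MulAut B),
      C (B ⋊[zpowersHom (MulAut B) α] Multiplicative ℤ)) →
      ∀ (K V : Type) [Group K] [Finite V] (H : Subgroup K) [H.FiniteIndex] (Γ : SimpleGraph V)
        (A : V → Subgroup H), IsGraphProduct Γ A → (∀ v, Finite (A v) ∨ IsCyclic (A v)) →
        Good C K ∧
        ((∀ (T : Type) [Group T], (∀ g : T, ∀ k : ℕ, 0 < k → g ^ k = 1 → g = 1) → C T →
          WhTrivial T) →
          ∀ (G : Type) [Group G] (N : Subgroup G) [N.Normal], Nonempty (N ≃* K) → C (G ⧸ N) →
            ∀ T : Subgroup G, (∀ g : T, ∀ k : ℕ, 0 < k → g ^ k = 1 → g = 1) → WhTrivial T)) := by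
  refine ⟨fun _ _ _ _ _ _ S h hS hT hgood =>
      Run7.h79.FJ.part_one (Run7.h79.FJ.closedF hC hF) h S hS hT hgood,
    fun hB _ _ _ _ H _ _ _ h hA => ?_⟩
  have hK := Run7.h79.FJ.part_two hC hF hB H h hA
  refine ⟨hK, fun hW G _ N _ ⟨e⟩ hQ T hT => ?_⟩
  exact hW T hT (hC.base.of_injective T G T.subtype T.subtype_injective (hK G N ⟨e⟩ hQ))

end Run7.h79.Kept.AllActions8f66f0
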