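import Pool.Agent.Run7.h79.FJ.Fin

/-!
# Extensions whose kernel is a graph product with finite vertex groups

`C` is any class of groups with the closure properties `ClosedE C` which contains the groups `F ⋊ ℤ` for
all free groups `F` and all automorphisms of `F`; this is published for the class of the groups which
satisfy the K-theoretic Farrell–Jones conjecture with coefficients and finite wreath products.

Call a group `K` a *good kernel* (`Good C K`) if every group `G` which has a normal subgroup `N` isomorphic
to `K` with `G ⧸ N` in `C` is in `C`. There is no condition on the action of `G` on `N`.

**Theorem.** Let `K` be the graph product of its subgroups `A v` along a finite graph, let the groups `A v`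
with `v` in `S` be finite, and suppose that each of the other groups `A v` has, for every `e > 0`, only
finitely many conjugacy classes of solutions of `x ^ e = 1` (e.g. it is torsion-free, virtually polycyclic
or hyperbolic). If the graph product of the groups `A v` with `v` outside `S` is a good kernel, then `K` is a
good kernel.

For example all graph products of finite groups along finite graphs, in particular all right-angled
Coxeter groups, are good kernels, and so are the free products and all other graph products of finite
groups with one good torsion-free group, e.g. with a torsion-free hyperbolic group.

Outline of the proof.

* An element of finite order of an amalgamated product is conjugate into a factor (starting file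
  `Y43/CH/Syll`). With the splitting of a graph product along the star of a vertex it follows, by
  induction on the number of vertices, that a graph product of groups with finitely many classes of
  solutions of `x ^ e = 1` has the same property.
* Let `N` be normal in `G`, `g` in `G`, and `v` a vertex in `S`. For `a` in `A v` all elements
  `g ^ j a g ^ -j` are in finitely many conjugacy classes of `N`, so that for some `k > 0` the element `g ^ k`
  preserves the `N`-conjugacy class of each element of `A v`. Hence `g ^ k` normalizes the normal closure
  `M` of `A v` in `N`, and the group `N / M` is the graph product of the other vertex groups. By induction
  `N⟨g ^ k⟩ / M` is in `C`.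
* `M` is a free product of conjugates of `A v`. The elements of `G` need not permute these conjugates. But
  the intersection `D` of the kernels of all homomorphisms from `M` to the finite group `A v` is
  characteristic in `M`, `M / D` is locally finite, and `D` meets the conjugates of `A v` trivially, because
  they are retracts of `M`; so `D` is free. As `C` is closed under extensions with free kernels and with
  locally finite kernels (realization criterion), `N⟨g ^ k⟩` is in `C`, and by the extension criterion so
  is `G`.
-/

set_option autoImplicit false

namespace Pool.Agent.Results.MP_f7db47_al.FiniteVertexGroups

open Pool.Agent.Y110.FJ (ClosedE)
open Run7.h79.FJ (Good IsGraphProduct FewTorsionClasses)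

theorem result (C : ∀ (G : Type) [Group G], Prop) (hC : ClosedE C)
    (hF : ∀ (X : Type) (α : MulAut (FreeGroup X)),
      C (FreeGroup X ⋊[zpowersHom (MulAut (FreeGroup X)) α] Multiplicative ℤ))
    (K V : Type) [Group K] [Finite V] (Γ : SimpleGraph V) (A : V → Subgroup K) (S : Set V)
    (h : IsGraphProduct Γ A) (hS : ∀ v ∈ S, Finite (A v))
    (hT : ∀ v, v ∉ S → FewTorsionClasses (A v)) (hgood : Good C ↥(⨆ v : ↥Sᶜ, A v)) : Good C K :=
  Run7.h79.FJ.part_one (Run7.h79.FJ.closedF hC hF) h S hS hT hgood

end Pool.Agent.Results.MP_f7db47_al.FiniteVertexGroups
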