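import Pool.Agent.Run7.h79.FY.Fin

/-!
# Extensions whose kernels are graph products of surface groups, cyclic groups and finite groups

`C` is any class of groups with the closure properties `ClosedE C` which contains the groups `F ⋊ ℤ` and
`B ⋊ ℤ` for all free groups `F`, all abelian groups `B` and all automorphisms. All this is published for the
class of the groups which satisfy the K-theoretic Farrell–Jones conjecture with coefficients and finite
wreath products, and the torsion-free groups `Γ` in this class have `Wh(Γ) = 0`.

Let `K` be a group with a subgroup of finite index which is a graph product, along a finite graph,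
of groups `A v`, each of which is

* finite, or cyclic, or
* finitely generated, torsion-free, freely indecomposable, with first Betti number at least two, and
  such that homomorphisms to the rational numbers which kill a nontrivial element kill its
  centralizer (`HypLike`), and the mapping tori `A v ⋊ ℤ` of all its automorphisms are in `C`. For the
  Farrell–Jones class this is published for torsion-free hyperbolic groups; so the fundamental groups of
  all closed surfaces with negative Euler characteristic are allowed.

**Theorem.** Every group `G` with a normal subgroup isomorphic to `K` and quotient in `C` is in `C`. Hence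
`Wh(T) = 0` for all torsion-free subgroups `T` of `G`. In particular `Wh(K ⋊ ℤ) = 0` for all automorphisms of
graph products `K` of surface groups and infinite cyclic groups.

There is no condition on the action of `G` on the kernel. Before, this was known for right-angled Artin
groups (`Run7/h370/RA`), for hyperbolic groups, for free products, and for actions which permute the
conjugacy classes of the vertex groups. An automorphism of a graph product need not permute them: if the
link of `v` is contained in the link of `w`, then `a ↦ a * f a` for `a` in `A v`, with a homomorphism `f` from
`A v` to the centre or to a cyclic subgroup of `A w`, often defines an automorphism (a transvection).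

Outline of the proof. Finite vertex groups are removed as in `Run7/h79/FJ`: a power of any element of `G`
preserves the conjugacy class of each element of a finite vertex group, because a graph product has only
finitely many conjugacy classes of elements of given finite order. Let the other vertex groups be infinite,
and `X` the finite dimensional space of the homomorphisms from the graph product `N` to `ℚ`.

* For `g` in `N` let `Ann(g)` be the space of the `f` in `X` which vanish on the centralizer of `g`. If the
  vertex `s` belongs to the support of `g` (`g` is not conjugate into the subgroup of the other vertices),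
  then every `f` with `f(g) = 0` which vanishes on the link of `s` is in `Ann(g)` (`cent_le`). For this `N` is
  written as an amalgamated product of `L × A s` and the group `Q` of the other vertices and mapped to the
  semidirect product of `A s × Q` with the free group on `A s × Q/L`. Elements which are not conjugate
  into a factor are hyperbolic there, and up to powers only multiples of them commute with them.
* So the codimension of `Ann(g)` is at most `D`, one more than the maximum over all vertices of the
  codimension of the space of the `f` which vanish on the link. If it is `D`, then all vertices in the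
  support of `g` are twins (`tw_of_sp`): they have the same link, or they are adjacent, cyclic, and have
  the same other neighbours. Conversely the codimension is `D` for all elements of the subgroup of a big
  class of twins which are not in the kernel of all `f` in `X` (`vis_special`).
* So automorphisms of `N` permute the normal closures `M` of the big classes of twins, and a power of any
  element of `G` normalizes one of them (`exists_pow`). The quotient `N / M` is the graph product of the
  other vertices, to which the induction hypothesis applies, and `M` is a free product of infinite cyclic
  groups and freely indecomposable groups, permuted up to conjugacy by Kurosh's theorem (starting files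
  `Q281/KG`, `Q32/DP`), so that the theorem of the starting file `R684/FP` applies (`kfree`).
-/

set_option autoImplicit false

namespace Pool.Agent.Results.MP_8f66f0_al.GraphProductExtensions

open Pool.Agent.Y110.FJ (ClosedE)
open Run7.h79.FJ (IsGraphProduct)
open Run7.h79.FY (HypLike)

/-- `Wh(Γ)` is trivial, in the form of the frozen statement `S02245`: every invertible matrix over `ℤΓ`,
stabilised by an identity block, is `±g` on one diagonal entry times a product of commutators of
invertible matrices. -/
def WhTrivial (Γ : Type) [Group Γ] : Prop :=
  ∀ (n : ℕ) (A : (Matrix (Fin n) (Fin n) (MonoidAlgebra ℤ Γ))ˣ),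
    ∃ (m : ℕ) (g : Γ) (ε : ℤˣ)
      (C : (Matrix (Fin n ⊕ Fin (m + 1)) (Fin n ⊕ Fin (m + 1)) (MonoidAlgebra ℤ Γ))ˣ),
      C ∈ commutator (Matrix (Fin n ⊕ Fin (m + 1)) (Fin n ⊕ Fin (m + 1)) (MonoidAlgebra ℤ Γ))ˣ ∧
      Matrix.fromBlocks (↑A : Matrix (Fin n) (Fin n) (MonoidAlgebra ℤ Γ))
          (0 : Matrix (Fin n) (Fin (m + 1)) (MonoidAlgebra ℤ Γ))
          (0 : Matrix (Fin (m + 1)) (Fin n) (MonoidAlgebra ℤ Γ))
          (1 : Matrix (Fin (m + 1)) (Fin (m + 1)) (MonoidAlgebra ℤ Γ)) =
        Matrix.diagonal (fun i : Fin n ⊕ Fin (m + 1) =>
            if i = Sum.inr (0 : Fin (m + 1)) then
              (MonoidAlgebra.single g ((ε : ℤ)) : MonoidAlgebra ℤ Γ) else 1) *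
          (↑C : Matrix (Fin n ⊕ Fin (m + 1)) (Fin n ⊕ Fin (m + 1)) (MonoidAlgebra ℤ Γ))

theorem result (C : ∀ (G : Type) [Group G], Prop) (hC : ClosedE C)
    (hF : ∀ (X : Type) (α : MulAut (FreeGroup X)),
      C (FreeGroup X ⋊[zpowersHom (MulAut (FreeGroup X)) α] Multiplicative ℤ))
    (hB : ∀ (B : Type) [CommGroup B] (α : MulAut B),
      C (B ⋊[zpowersHom (MulAut B) α] Multiplicative ℤ))
    (K V : Type) [Group K] [Finite V] (H : Subgroup K) [H.FiniteIndex] (Γ : SimpleGraph V)
    (A : V → Subgroup H) (h : IsGraphProduct Γ A)
    (hA : ∀ v, Finite (A v) ∨ IsCyclic (A v) ∨ (HypLike (A v) ∧
      ∀ α : MulAut (A v), C (A v ⋊[zpowersHom (MulAut (A v)) α] Multiplicative ℤ)))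
    (G : Type) [Group G] (N : Subgroup G) [N.Normal] (hN : Nonempty (N ≃* K)) (hQ : C (G ⧸ N)) :
    C G ∧
    ((∀ (T : Type) [Group T], (∀ g : T, ∀ k : ℕ, 0 < k → g ^ k = 1 → g = 1) → C T → WhTrivial T) →
      ∀ T : Subgroup G, (∀ g : T, ∀ k : ℕ, 0 < k → g ^ k = 1 → g = 1) → WhTrivial T) := by
  have hG : C G := Run7.h79.FY.part_three hC hF hB H h hA G N hN hQ
  exact ⟨hG, fun hW T hT => hW T hT (hC.base.of_injective T G T.subtype T.subtype_injective hG)⟩

end Pool.Agent.Results.MP_8f66f0_al.GraphProductExtensions
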